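import Mathlib
import Pool.Agent.W223.RD.Stms

/-! Project RD (helper223), part D6: few smooth integers. -/

set_option autoImplicit false

namespace Pool.Agent.W701.RDX

open Finset

theorem harm (M : ℕ) : ∑ j ∈ Icc 1 M, (1 : ℝ) / j ≤ 1 + Real.log M := by
  have h := harmonic_le_one_add_log M
  rw [harmonic_eq_sum_Icc] at h
  push_cast at h
  simpa [one_div] using h

theorem tD6 : Pool.Agent.W223.RD.StmtD6 := by
  classical
  refine ⟨Real.exp 64, ?_, ?_⟩
  · have := Real.add_one_le_exp (64 : ℝ)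
    linarith
  intro X hX
  have hX0 : 0 < X := (Real.exp_pos _).trans_le hX
  have hL : (64 : ℝ) ≤ Real.log X := by
    rw [Real.le_log_iff_exp_le hX0]
    exact hX
  have hL0 : 0 < Real.log X := by linarith
  set u : ℝ := Real.log X ^ ((1 : ℝ) / 3) with hu
  have hu3 : u ^ 3 = Real.log X := by
    rw [hu, ← Real.rpow_natCast, ← Real.rpow_mul hL0.le]
    norm_num
  have hu0 : 0 < u := Real.rpow_pos_of_pos hL0 _
  have hu4 : 4 ≤ u := by
    by_contra h
    push Not at h
    have h1 : u ^ 3 < 4 ^ 3 := pow_lt_pow_left₀ h hu0.le (by norm_num)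
    rw [hu3] at h1
    linarith
  set α : ℝ := 1 / u with hα
  have hα0 : 0 < α := by positivity
  have hα1 : α ≤ 1 := by
    rw [hα, div_le_one hu0]
    linarith
  set Y : ℝ := Real.exp u with hY
  have hY0 : 0 < Y := Real.exp_pos _
  set N : ℕ := ⌊Y⌋₊ with hN
  set P : Finset ℕ := (Icc 1 N).filter Nat.Prime with hP
  let F : Finset ℕ := (Icc 1 ⌊X⌋₊).filter
    (fun R => Squarefree R ∧ ∀ p : ℕ, p.Prime → p ∣ R → (p : ℝ) ≤ Y)
  have hS : {R : ℕ | 1 ≤ R ∧ (R : ℝ) ≤ X ∧ Squarefree R ∧ ∀ p : ℕ, p.Prime → p ∣ R →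
      (p : ℝ) ≤ Y} = (F : Set ℕ) := by
    ext R
    simp only [F, Set.mem_ofPred_eq, coe_filter, mem_Icc]
    constructor
    · rintro ⟨h1, h2, h3⟩
      exact ⟨⟨h1, Nat.le_floor h2⟩, h3⟩
    · rintro ⟨⟨h1, h2⟩, h3⟩
      exact ⟨h1, (Nat.le_floor_iff hX0.le).1 h2, h3⟩
  rw [hS, Set.ncard_coe_finset]
  let g : ℕ → ℝ := fun n => (n : ℝ) ^ (α - 1)
  have hg0 : ∀ n, 0 ≤ g n := fun n => Real.rpow_nonneg (Nat.cast_nonneg n) _
  have hF : ∀ R ∈ F, 1 ≤ R ∧ (R : ℝ) ≤ X ∧ Squarefree R ∧ ∀ p : ℕ, p.Prime → p ∣ R →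
      (p : ℝ) ≤ Y := by
    intro R hR
    have : R ∈ (F : Set ℕ) := hR
    rw [← hS] at this
    exact this
  -- Rankin
  have h1 : ∀ R ∈ F, (1 : ℝ) ≤ X ^ (1 - α) * ∏ p ∈ R.primeFactors, g p := by
    intro R hR
    obtain ⟨hR1, hRX, hsq, -⟩ := hF R hR
    have hR0 : (0 : ℝ) < R := by exact_mod_cast hR1
    have e1 : ∏ p ∈ R.primeFactors, g p = (R : ℝ) ^ (α - 1) := by
      simp only [g]
      rw [Real.finsetProd_rpow _ _ (fun i _ => Nat.cast_nonneg i)]
      have e3 := Nat.prod_primeFactors_of_squarefree hsq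
      have e4 : ∏ i ∈ R.primeFactors, (i : ℝ) = ((∏ i ∈ R.primeFactors, i : ℕ) : ℝ) := by
        rw [Nat.cast_prod]
      rw [e4, e3]
    rw [e1]
    have e2 : X ^ (1 - α) * (R : ℝ) ^ (α - 1) = (X / R) ^ (1 - α) := by
      rw [Real.div_rpow hX0.le hR0.le, div_eq_mul_inv, ← Real.rpow_neg hR0.le]
      congr 2
      ring
    rw [e2]
    exact Real.one_le_rpow ((one_le_div hR0).2 hRX) (by linarith)
  have h2 : (F.card : ℝ) ≤ X ^ (1 - α) * ∑ R ∈ F, ∏ p ∈ R.primeFactors, g p := by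
    rw [Finset.mul_sum]
    calc (F.card : ℝ) = ∑ R ∈ F, (1 : ℝ) := by simp
      _ ≤ _ := Finset.sum_le_sum h1
  have h3 : ∑ R ∈ F, ∏ p ∈ R.primeFactors, g p ≤ ∏ p ∈ P, (1 + g p) := by
    rw [Finset.prod_one_add]
    have hinj : Set.InjOn (fun R : ℕ => R.primeFactors) (F : Set ℕ) := by
      intro a ha b hb hab
      simp only at hab
      rw [← Nat.prod_primeFactors_of_squarefree (hF a ha).2.2.1,
        ← Nat.prod_primeFactors_of_squarefree (hF b hb).2.2.1, hab]
    rw [← Finset.sum_image (s := F) (g := fun R : ℕ => R.primeFactors)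
      (f := fun T : Finset ℕ => ∏ p ∈ T, g p) hinj]
    apply Finset.sum_le_sum_of_subset_of_nonneg
    · intro T hT
      rw [mem_image] at hT
      obtain ⟨R, hR, rfl⟩ := hT
      rw [mem_powerset]
      intro p hp
      rw [hP, mem_filter, mem_Icc]
      have hpp := Nat.prime_of_mem_primeFactors hp
      have hpY := (hF R hR).2.2.2 p hpp (Nat.dvd_of_mem_primeFactors hp)
      exact ⟨⟨hpp.one_lt.le, Nat.le_floor hpY⟩, hpp⟩
    · intro T _ _
      exact Finset.prod_nonneg fun p _ => hg0 p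
  have h4 : ∏ p ∈ P, (1 + g p) ≤ Real.exp (∑ p ∈ P, g p) := by
    rw [Real.exp_sum]
    apply Finset.prod_le_prod
    · intro p _
      have := hg0 p
      linarith
    · intro p _
      have := Real.add_one_le_exp (g p)
      linarith
  have h5 : ∑ p ∈ P, g p ≤ 3 * (1 + u) := by
    have e1 : ∀ p ∈ P, g p ≤ 3 * ((1 : ℝ) / p) := by
      intro p hp
      rw [hP, mem_filter, mem_Icc] at hp
      obtain ⟨⟨hp1, hp2⟩, -⟩ := hp
      have hp0 : (0 : ℝ) < p := by exact_mod_cast hp1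
      have hpY : (p : ℝ) ≤ Y := (Nat.le_floor_iff hY0.le).1 hp2
      simp only [g]
      rw [Real.rpow_sub_one hp0.ne']
      have e2 : (p : ℝ) ^ α ≤ 3 := by
        calc (p : ℝ) ^ α ≤ Y ^ α := Real.rpow_le_rpow hp0.le hpY hα0.le
          _ = Real.exp 1 := by
              rw [hY, ← Real.exp_mul, hα]
              congr 1
              field_simp
          _ ≤ 3 := Real.exp_one_lt_three.le
      calc (p : ℝ) ^ α / p ≤ 3 / p := div_le_div_of_nonneg_right e2 hp0.le
        _ = 3 * ((1 : ℝ) / p) := by ring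
    refine (Finset.sum_le_sum e1).trans ?_
    rw [← Finset.mul_sum]
    apply mul_le_mul_of_nonneg_left _ (by norm_num)
    calc ∑ p ∈ P, (1 : ℝ) / p ≤ ∑ p ∈ Icc 1 N, (1 : ℝ) / p := by
          apply Finset.sum_le_sum_of_subset_of_nonneg
          · rw [hP]
            exact Finset.filter_subset _ _
          · intro n _ _
            positivity
      _ ≤ 1 + Real.log N := harm N
      _ ≤ 1 + u := by
          have hN1 : (0 : ℝ) < N := by
            have : 1 ≤ N := Nat.le_floor (by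
              have := Real.add_one_le_exp u
              push_cast
              linarith)
            exact_mod_cast this
          have : Real.log N ≤ Real.log Y :=
            Real.log_le_log hN1 (Nat.floor_le hY0.le)
          rw [hY, Real.log_exp] at this
          linarith
  have h6 : X ^ (1 - α) = X * Real.exp (-(u ^ 2)) := by
    rw [Real.rpow_sub hX0, Real.rpow_one, Real.rpow_def_of_pos hX0, Real.exp_neg, div_eq_mul_inv]
    congr 3
    rw [← hu3, hα]
    field_simp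
  calc (F.card : ℝ) ≤ X ^ (1 - α) * ∑ R ∈ F, ∏ p ∈ R.primeFactors, g p := h2
    _ ≤ X ^ (1 - α) * Real.exp (3 * (1 + u)) := by
        apply mul_le_mul_of_nonneg_left _ (Real.rpow_nonneg hX0.le _)
        exact (h3.trans h4).trans (Real.exp_le_exp.2 h5)
    _ = X * Real.exp (-(u ^ 2) + 3 * (1 + u)) := by
        rw [h6, Real.exp_add, mul_assoc]
    _ ≤ X * Real.exp (-(u / 90)) := by
        apply mul_le_mul_of_nonneg_left _ hX0.le
        apply Real.exp_le_exp.2
        nlinarith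

end Pool.Agent.W701.RDX
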