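import Pool.Agent.W830.RD.Stm

set_option autoImplicit false

namespace Pool.Agent.W701.RD.Win

open Finset Filter Topology
open scoped Classical
open Pool.Agent.W830.RD

noncomputable section

/-- pairs inside the interval `[b, b + 2 L]` -/
def SS (n L b : ℕ) : Finset (Fin n × Fin n) :=
  Finset.univ.filter (fun e => (b ≤ (e.1 : ℕ) ∧ (e.1 : ℕ) ≤ b + 2 * L) ∧
    (b ≤ (e.2 : ℕ) ∧ (e.2 : ℕ) ≤ b + 2 * L))

lemma mem_SS {n L b : ℕ} {e : Fin n × Fin n} : e ∈ SS n L b ↔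
    (b ≤ (e.1 : ℕ) ∧ (e.1 : ℕ) ≤ b + 2 * L) ∧ (b ≤ (e.2 : ℕ) ∧ (e.2 : ℕ) ≤ b + 2 * L) := by
  simp [SS]

lemma lpost_iff {n L b : ℕ} (E : Finset (Fin n × Fin n)) :
    LPost L E (b + L) ↔ LPost L (E ∩ SS n L b) (b + L) := by
  constructor
  · rintro ⟨h1, h2⟩
    refine ⟨fun k hk1 hk2 w hw => ?_, fun k hk1 hk2 w hw => ?_⟩
    · obtain ⟨u, hu1, hu2, hu3⟩ := h1 k hk1 hk2 w hw
      refine ⟨u, hu1, hu2, mem_inter.2 ⟨hu3, mem_SS.2 ?_⟩⟩
      have hu2' : (u : ℕ) < (w : ℕ) := hu2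
      simp only
      omega
    · obtain ⟨u, hu1, hu2, hu3⟩ := h2 k hk1 hk2 w hw
      refine ⟨u, hu1, hu2, mem_inter.2 ⟨hu3, mem_SS.2 ?_⟩⟩
      have hu2' : (w : ℕ) < (u : ℕ) := hu2
      simp only
      omega
  · rintro ⟨h1, h2⟩
    refine ⟨fun k hk1 hk2 w hw => ?_, fun k hk1 hk2 w hw => ?_⟩
    · obtain ⟨u, hu1, hu2, hu3⟩ := h1 k hk1 hk2 w hw
      exact ⟨u, hu1, hu2, (mem_inter.1 hu3).1⟩
    · obtain ⟨u, hu1, hu2, hu3⟩ := h2 k hk1 hk2 w hw
      exact ⟨u, hu1, hu2, (mem_inter.1 hu3).1⟩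

lemma lt_aux {i j L : ℕ} (h : i < j) : i * (2 * L + 1) + 2 * L < j * (2 * L + 1) := by
  have : (i + 1) * (2 * L + 1) ≤ j * (2 * L + 1) := Nat.mul_le_mul_right _ h
  have e : (i + 1) * (2 * L + 1) = i * (2 * L + 1) + (2 * L + 1) := by ring
  omega

lemma SS_disj {n L v i j : ℕ} (h : i ≠ j) :
    Disjoint (SS n L (v + i * (2 * L + 1))) (SS n L (v + j * (2 * L + 1))) := by
  rw [Finset.disjoint_left]
  intro e h1 h2
  rw [mem_SS] at h1 h2
  rcases Nat.lt_or_gt_of_ne h with h' | h'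
  · have := lt_aux (L := L) h'
    omega
  · have := lt_aux (L := L) h'
    omega

theorem main (hB : S_PBAS) (hI : S_PIND) : S_WIN := by
  intro p κ hp0 hp1 hκ0 hκ1 hLP n L R v hn
  obtain ⟨_, b2, _, _, b5, _⟩ := hB p n hp0 hp1
  obtain ⟨_, i2, _⟩ := hI p n hp0 hp1
  have e1 : (fun E : Finset (Fin n × Fin n) => ∀ i < R, ¬ LPost L E (v + i * (2 * L + 1) + L))
      = (fun E : Finset (Fin n × Fin n) => ∀ i ∈ Finset.range R,
        (fun (i : ℕ) (F : Finset (Fin n × Fin n)) => ¬ LPost L F (v + i * (2 * L + 1) + L)) i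
          (E ∩ SS n L (v + i * (2 * L + 1)))) := by
    funext E
    apply propext
    constructor
    · intro h i hi
      exact fun h' => h i (Finset.mem_range.1 hi) ((lpost_iff E).2 h')
    · intro h i hi h'
      exact h i (Finset.mem_range.2 hi) ((lpost_iff E).1 h')
  rw [e1, i2 ℕ (Finset.range R) (fun i => SS n L (v + i * (2 * L + 1)))
    (fun (i : ℕ) (F : Finset (Fin n × Fin n)) => ¬ LPost L F (v + i * (2 * L + 1) + L))
    (fun i _ j _ hij => SS_disj hij)]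
  have e2 : ∀ i : ℕ, Pr p n (fun E => ¬ LPost L (E ∩ SS n L (v + i * (2 * L + 1)))
      (v + i * (2 * L + 1) + L)) = 1 - Pr p n (fun E => LPost L E (v + i * (2 * L + 1) + L)) := by
    intro i
    rw [← b5]
    congr 1
    funext E
    rw [← lpost_iff E]
  calc ∏ i ∈ Finset.range R, Pr p n (fun E => ¬ LPost L (E ∩ SS n L (v + i * (2 * L + 1)))
      (v + i * (2 * L + 1) + L)) ≤ ∏ _i ∈ Finset.range R, (1 - κ) := by
        refine Finset.prod_le_prod (fun i _ => b2 _) (fun i hi => ?_)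
        rw [e2 i]
        have h1 := lt_aux (L := L) (Finset.mem_range.1 hi)
        have h2 := hLP n L (v + i * (2 * L + 1) + L) (by omega)
        linarith
    _ = (1 - κ) ^ R := by simp

end

end Pool.Agent.W701.RD.Win
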